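import Mathlib
import Pool.Agent.Lib.MP_3c7b25_co.Main

/-!
Q1 of MP_3c7b25_co: the polynomial Bogolyubov statement for dense subsets of `[N]` (Bohr sets of
constant width and of dimension `O(log (1/α))` inside `2A - 2A`) is false; in fact it fails for
`mA - mA` for every fixed `m`, and for all large `N` at a density bounded below.
-/

open Finset Pool.Agent.Lib.MP_3c7b25_co

namespace Pool.Agent.Results.MP_3c7b25_co.NoPolyBogolyubov

/-- The Bohr set `B(Θ, ρ; N)` of all integers `n` with `|n| ≤ N` and `‖n θ‖ ≤ ρ` for all `θ ∈ Θ`,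
where `Θ` is a finite subset of `ℝ / ℤ` and `‖ ‖` is the norm of `ℝ / ℤ`, i.e. the distance to the
nearest integer. -/
def bohr (Θ : Finset UnitAddCircle) (ρ : ℝ) (N : ℕ) : Set ℤ :=
  {n | |n| ≤ (N : ℤ) ∧ ∀ θ ∈ Θ, ‖n • θ‖ ≤ ρ}

/-- The set `mA - mA` of all `a₁ + ⋯ + a_m - b₁ - ⋯ - b_m` with `a_i, b_i ∈ A`. -/
def diffSet (m : ℕ) (A : Finset ℤ) : Set ℤ :=
  {z | ∃ a b : Fin m → ℤ, (∀ i, a i ∈ A) ∧ (∀ i, b i ∈ A) ∧ z = ∑ i, a i - ∑ i, b i}

lemma exists_enum (Θ : Finset UnitAddCircle) {D : ℕ} (h : #Θ ≤ D) :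
    ∃ f : Fin D → UnitAddCircle, ∀ θ ∈ Θ, ∃ j, f j = θ := by
  refine ⟨fun j => Θ.toList.getD j 0, fun θ hθ => ?_⟩
  obtain ⟨i, hi, hiθ⟩ := List.mem_iff_getElem.1 (Finset.mem_toList.2 hθ)
  have hi' : i < #Θ := by rwa [Finset.length_toList] at hi
  refine ⟨⟨i, hi'.trans_le h⟩, ?_⟩
  simp only
  rw [List.getD_eq_getElem _ _ hi, hiθ]

theorem result (m : ℕ) (hm : 1 ≤ m) (c C : ℝ) (hc : 0 < c) :
    ∃ α₀ : ℝ, 0 < α₀ ∧ ∃ N₀ : ℕ, ∀ N : ℕ, N₀ ≤ N →
      ∃ A : Finset ℤ, A ⊆ Finset.Icc 1 (N : ℤ) ∧ A.Nonempty ∧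
        α₀ * N ≤ (#A : ℝ) ∧ (#A : ℝ) ≤ N / 2 ∧
        ∀ (Θ : Finset UnitAddCircle) (ρ : ℝ), c ≤ ρ → (#Θ : ℝ) ≤ C * Real.log (N / #A) →
          ¬ bohr Θ ρ N ⊆ diffSet m A := by
  classical
  -- parameters
  obtain ⟨L, hL1, hLc⟩ : ∃ L : ℕ, 1 ≤ L ∧ 2 / (L : ℝ) ≤ c := by
    obtain ⟨L, hL⟩ := exists_nat_ge (2 / c)
    have h1 : (0 : ℝ) < 2 / c := by positivity
    have hL0 : (0 : ℝ) < L := lt_of_lt_of_le h1 hL
    refine ⟨L, by exact_mod_cast hL0, ?_⟩
    rw [div_le_iff₀ hL0]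
    rw [div_le_iff₀ hc] at hL
    linarith
  have hm' : (1 : ℝ) ≤ m := by exact_mod_cast hm
  have hlog : 0 ≤ Real.log (4 * m) := Real.log_nonneg (by linarith)
  obtain ⟨K, hK1, hKC⟩ : ∃ K : ℕ, 1 ≤ K ∧ 2 * |C| * Real.log (4 * m) ≤ K := by
    obtain ⟨K, hK⟩ := exists_nat_ge (2 * |C| * Real.log (4 * m))
    exact ⟨K + 1, by omega, hK.trans (by push_cast; linarith)⟩
  obtain ⟨q, d, hq1, hd1, X, hXq, hXcard, hX⟩ := main_finite m L K hm hL1 hK1
  set M := 4 * m * q with hM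
  have hmq : 1 ≤ m * q := Nat.one_le_iff_ne_zero.2 (by positivity)
  have hM1 : 1 ≤ M := by rw [hM]; nlinarith
  set N₁ := M ^ d with hN₁
  have hN₁pos : 0 < N₁ := by rw [hN₁]; positivity
  have hMpos : (0 : ℝ) < M := by exact_mod_cast hM1
  have hN₁r : (0 : ℝ) < N₁ := by exact_mod_cast hN₁pos
  have hXle : #X ≤ (q + 1) ^ d := by
    have h1 : X ⊆ Fintype.piFinset (fun _ : Fin d => Finset.Icc (0 : ℤ) (q : ℤ)) := by
      intro x hx
      rw [Fintype.mem_piFinset]
      exact fun i => Finset.mem_Icc.2 (hXq x hx i)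
    refine (Finset.card_le_card h1).trans ?_
    rw [Fintype.card_piFinset, Finset.prod_const, Finset.card_univ, Fintype.card_fin, Int.card_Icc]
    exact le_of_eq (by congr 1)
  have h2q : 2 * (q + 1) ^ d ≤ N₁ := by
    calc 2 * (q + 1) ^ d = 2 ^ 1 * (q + 1) ^ d := by ring
      _ ≤ 2 ^ d * (q + 1) ^ d := Nat.mul_le_mul_right _ (Nat.pow_le_pow_right (by norm_num) hd1)
      _ = (2 * (q + 1)) ^ d := by rw [mul_pow]
      _ ≤ N₁ := Nat.pow_le_pow_left (by rw [hM]; nlinarith) d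
  have hq1r : (0 : ℝ) < (q : ℝ) + 1 := by positivity
  refine ⟨((q : ℝ) + 1) ^ d / (4 * m * N₁), by positivity, N₁, ?_⟩
  intro N hN
  -- the scale `H`
  set H := N / N₁ with hH
  have hH1 : 1 ≤ H := by
    rw [hH, Nat.one_le_div_iff hN₁pos]; exact hN
  have hHN : N₁ * H ≤ N := Nat.mul_div_le N N₁
  have hNH : N < N₁ * H + N₁ := by
    have := Nat.lt_mul_div_succ N hN₁pos
    calc N < N₁ * (N / N₁ + 1) := this
      _ = _ := by rw [← hH]; ring
  set w := (H - 1) / m + 1 with hw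
  have hw1 : m * (w - 1) < H := by
    have h1 := Nat.mul_div_le (H - 1) m
    have h2 : w - 1 = (H - 1) / m := by rw [hw]; rfl
    rw [h2]; omega
  have hw2 : H ≤ m * w := by
    have h1 := Nat.lt_mul_div_succ (H - 1) (show 0 < m by omega)
    rw [← hw] at h1; omega
  have hw3 : w ≤ H := by
    have h1 := Nat.div_le_self (H - 1) m
    rw [hw]; omega
  have hwpos : 0 < w := Nat.succ_pos _
  -- the set
  set F : (Fin d → ℤ) × ℕ → ℤ := fun p => 1 + (H : ℤ) * ev (M : ℤ) p.1 + (p.2 : ℤ) with hF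
  set A : Finset ℤ := (X ×ˢ Finset.range w).image F with hA
  have hHpos : (0 : ℤ) < H := by exact_mod_cast hH1
  have hFinj : Set.InjOn F ((X ×ˢ Finset.range w : Finset _) : Set ((Fin d → ℤ) × ℕ)) := by
    rintro ⟨x, i⟩ hx ⟨y, j⟩ hy hxy
    rw [Finset.mem_coe, Finset.mem_product] at hx hy
    simp only [hF] at hxy
    have hi := Finset.mem_range.1 hx.2
    have hj := Finset.mem_range.1 hy.2
    simp only at hi hj
    have h1 : ((i : ℤ) - j) = 0 := by
      apply Int.eq_zero_of_abs_lt_dvd (m := (H : ℤ))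
      · exact ⟨ev (M : ℤ) y - ev (M : ℤ) x, by linarith⟩
      · rw [abs_lt]; constructor <;> omega
    have h2 : i = j := by omega
    subst h2
    have h3 : (H : ℤ) * ev (M : ℤ) (x - y) = 0 := by rw [ev_sub]; linarith
    have h4 : ev (M : ℤ) (x - y) = 0 := by
      rcases mul_eq_zero.1 h3 with h | h
      · exact absurd h hHpos.ne'
      · exact h
    have h5 : x - y = 0 := by
      apply eq_zero_of_ev (M := (M : ℤ)) (by exact_mod_cast hM1) _ _ h4
      intro i
      have a1 := hXq x hx.1 i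
      have a2 := hXq y hy.1 i
      have a3 : (q : ℤ) < M := by
        have : q < M := by rw [hM]; nlinarith
        exact_mod_cast this
      rw [Pi.sub_apply, abs_lt]
      constructor <;> linarith [a1.1, a1.2, a2.1, a2.2]
    rw [sub_eq_zero] at h5
    rw [h5]
  have hAcard : #A = #X * w := by
    rw [hA, Finset.card_image_of_injOn hFinj, Finset.card_product, Finset.card_range]
  have hXpos : 0 < #X := by
    have : 0 < (q + 1) ^ d := by positivity
    omega
  have hApos : 0 < #A := by rw [hAcard]; positivity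
  have hAr : (0 : ℝ) < #A := by exact_mod_cast hApos
  have hdens : ((q : ℝ) + 1) ^ d / (4 * m * N₁) * N ≤ (#A : ℝ) := by
    have h1 : (N : ℝ) ≤ 2 * N₁ * (m * w) := by
      have h2 : N ≤ 2 * N₁ * (m * w) := by
        have h3 : N₁ ≤ N₁ * H := Nat.le_mul_of_pos_right _ hH1
        have h4 : N₁ * H ≤ N₁ * (m * w) := Nat.mul_le_mul_left _ hw2
        have h5 : 2 * N₁ * (m * w) = N₁ * (m * w) + N₁ * (m * w) := by ring
        omega
      exact_mod_cast h2
    have h6 : ((q : ℝ) + 1) ^ d ≤ 2 * #X := by exact_mod_cast hXcard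
    rw [hAcard, div_mul_eq_mul_div, div_le_iff₀ (by positivity)]
    push_cast
    calc ((q : ℝ) + 1) ^ d * N ≤ (2 * #X) * (2 * N₁ * (m * w)) :=
          mul_le_mul h6 h1 (Nat.cast_nonneg N) (by positivity)
      _ = #X * w * (4 * m * N₁) := by ring
  refine ⟨A, ?_, Finset.card_pos.1 hApos, hdens, ?_, ?_⟩
  · intro z hz
    obtain ⟨⟨x, j⟩, hp, rfl⟩ := Finset.mem_image.1 hz
    rw [Finset.mem_product] at hp
    have hj := Finset.mem_range.1 hp.2
    have hx := hXq x hp.1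
    have h1 : 0 ≤ ev (M : ℤ) x := ev_nonneg (by exact_mod_cast hM1) x (fun i => (hx i).1)
    have h2 : ev (M : ℤ) x + 1 ≤ (M : ℤ) ^ d := by
      apply ev_lt (by exact_mod_cast hM1) x
      intro i
      have a3 : (q : ℤ) < M := by
        have : q < M := by rw [hM]; nlinarith
        exact_mod_cast this
      exact lt_of_le_of_lt (hx i).2 a3
    have h3 : (H : ℤ) * (ev (M : ℤ) x + 1) ≤ H * (M : ℤ) ^ d :=
      mul_le_mul_of_nonneg_left h2 hHpos.le
    have h4 : (H : ℤ) * (M : ℤ) ^ d ≤ N := by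
      have : H * M ^ d ≤ N := by rw [← hN₁, mul_comm]; exact hHN
      exact_mod_cast this
    have h5 : 0 ≤ (H : ℤ) * ev (M : ℤ) x := mul_nonneg hHpos.le h1
    have h6 : (j : ℤ) + 1 ≤ H := by
      simp only at hj
      omega
    rw [Finset.mem_Icc]
    simp only [hF]
    have h7 : (0 : ℤ) ≤ j := Int.natCast_nonneg j
    constructor
    · linarith
    · linarith
  · have h1 : 2 * #A ≤ N := by
      calc 2 * #A = 2 * (#X * w) := by rw [hAcard]
        _ ≤ 2 * ((q + 1) ^ d * H) := Nat.mul_le_mul_left _ (Nat.mul_le_mul hXle hw3)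
        _ = (2 * (q + 1) ^ d) * H := by ring
        _ ≤ N₁ * H := Nat.mul_le_mul_right _ h2q
        _ ≤ N := hHN
    have h2 : (2 * #A : ℝ) ≤ N := by exact_mod_cast h1
    linarith
  · intro Θ ρ hρ hΘ hsub
    -- the dimension
    have hNr : (0 : ℝ) < N := by
      have : 0 < N := lt_of_lt_of_le hN₁pos hN
      exact_mod_cast this
    have hratio : (N : ℝ) / #A ≤ (4 * m) ^ (d + 1) := by
      rw [div_le_iff₀ hAr]
      have h1 : (4 * (m : ℝ)) ^ (d + 1) * (((q : ℝ) + 1) ^ d / (4 * m * N₁) * N) ≤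
          (4 * (m : ℝ)) ^ (d + 1) * #A := mul_le_mul_of_nonneg_left hdens (by positivity)
      refine le_trans ?_ h1
      have h2 : (N₁ : ℝ) ≤ (4 * m) ^ d * ((q : ℝ) + 1) ^ d := by
        rw [hN₁, ← mul_pow]
        push_cast
        apply pow_le_pow_left₀ (by positivity)
        rw [hM]; push_cast
        exact mul_le_mul_of_nonneg_left (by linarith) (by positivity)
      have h3 : (4 * (m : ℝ)) ^ (d + 1) * (((q : ℝ) + 1) ^ d / (4 * m * N₁) * N) =
          ((4 * m) ^ d * ((q : ℝ) + 1) ^ d) / N₁ * N := by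
        field_simp
        ring
      rw [h3]
      have h4 : 1 ≤ ((4 * m) ^ d * ((q : ℝ) + 1) ^ d) / N₁ := by
        rw [le_div_iff₀ hN₁r]; linarith
      exact le_mul_of_one_le_left hNr.le h4
    have hratio1 : 1 ≤ (N : ℝ) / #A := by
      have h2 : #X * w ≤ N := by
        calc #X * w ≤ (q + 1) ^ d * H := Nat.mul_le_mul hXle hw3
          _ ≤ N₁ * H := Nat.mul_le_mul_right _ (by omega)
          _ ≤ N := hHN
      rw [le_div_iff₀ hAr, one_mul]
      rw [← hAcard] at h2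
      exact_mod_cast h2
    have hlogN : Real.log ((N : ℝ) / #A) ≤ 2 * d * Real.log (4 * m) := by
      have h1 := Real.log_le_log (by linarith) hratio
      rw [Real.log_pow] at h1
      have h2 : ((d + 1 : ℕ) : ℝ) ≤ 2 * d := by
        have : (1 : ℝ) ≤ d := by exact_mod_cast hd1
        push_cast; linarith
      have h3 := mul_le_mul_of_nonneg_right h2 hlog
      linarith
    have hlogN0 : 0 ≤ Real.log ((N : ℝ) / #A) := Real.log_nonneg hratio1
    have hdim : #Θ ≤ K * d := by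
      have h1 : C * Real.log (N / #A) ≤ K * d := by
        calc C * Real.log (N / #A) ≤ |C| * Real.log (N / #A) :=
              mul_le_mul_of_nonneg_right (le_abs_self C) hlogN0
          _ ≤ |C| * (2 * d * Real.log (4 * m)) := mul_le_mul_of_nonneg_left hlogN (abs_nonneg C)
          _ = (2 * |C| * Real.log (4 * m)) * d := by ring
          _ ≤ K * d := mul_le_mul_of_nonneg_right hKC (Nat.cast_nonneg d)
      have h2 : (#Θ : ℝ) ≤ ((K * d : ℕ) : ℝ) := by push_cast; linarith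
      exact_mod_cast h2
    obtain ⟨f, hf⟩ := exists_enum Θ hdim
    obtain ⟨n, hn1, hn2, hn3⟩ := hX (fun j => (H : ℤ) • f j)
    have hmem : (H : ℤ) * n ∈ bohr Θ ρ N := by
      refine ⟨?_, ?_⟩
      · rw [abs_mul, abs_of_pos hHpos]
        have h1 : (H : ℤ) * |n| ≤ H * (N₁ : ℤ) := mul_le_mul_of_nonneg_left hn1 hHpos.le
        have h2 : (H : ℤ) * (N₁ : ℤ) ≤ N := by
          have : H * N₁ ≤ N := by rw [mul_comm]; exact hHN
          exact_mod_cast this
        exact h1.trans h2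
      · intro θ hθ
        obtain ⟨j, rfl⟩ := hf θ hθ
        have h1 := hn2 j
        have h2 : ((H : ℤ) * n) • f j = n • ((H : ℤ) • f j) := by
          rw [mul_comm, mul_smul]
        rw [h2]
        exact (h1.trans hLc).trans hρ
    obtain ⟨a, b, ha, hb, hab⟩ := hsub hmem
    have hae : ∀ i, ∃ x ∈ X, ∃ j : ℕ, j < w ∧ a i = 1 + (H : ℤ) * ev (M : ℤ) x + (j : ℤ) := by
      intro i
      obtain ⟨⟨x, j⟩, hp, hpe⟩ := Finset.mem_image.1 (ha i)
      rw [Finset.mem_product] at hp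
      exact ⟨x, hp.1, j, Finset.mem_range.1 hp.2, hpe.symm⟩
    have hbe : ∀ i, ∃ x ∈ X, ∃ j : ℕ, j < w ∧ b i = 1 + (H : ℤ) * ev (M : ℤ) x + (j : ℤ) := by
      intro i
      obtain ⟨⟨x, j⟩, hp, hpe⟩ := Finset.mem_image.1 (hb i)
      rw [Finset.mem_product] at hp
      exact ⟨x, hp.1, j, Finset.mem_range.1 hp.2, hpe.symm⟩
    choose u hu i hi hai using hae
    choose v hv j hj hbj using hbe
    apply hn3 u v hu hv
    have hmw : (m : ℤ) * ((w : ℤ) - 1) < H := by
      have : ((m * (w - 1) : ℕ) : ℤ) < ((H : ℕ) : ℤ) := by exact_mod_cast hw1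
      rw [Nat.cast_mul, Nat.cast_sub hwpos] at this
      exact_mod_cast this
    have hsi : 0 ≤ ∑ t, (i t : ℤ) ∧ ∑ t, (i t : ℤ) ≤ (m : ℤ) * ((w : ℤ) - 1) := by
      refine ⟨Finset.sum_nonneg fun t _ => Int.natCast_nonneg _, ?_⟩
      calc ∑ t, (i t : ℤ) ≤ ∑ _t : Fin m, ((w : ℤ) - 1) := by
            refine Finset.sum_le_sum fun t _ => ?_
            have := hi t
            omega
        _ = _ := by rw [Finset.sum_const, Finset.card_univ, Fintype.card_fin, nsmul_eq_mul]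
    have hsj : 0 ≤ ∑ t, (j t : ℤ) ∧ ∑ t, (j t : ℤ) ≤ (m : ℤ) * ((w : ℤ) - 1) := by
      refine ⟨Finset.sum_nonneg fun t _ => Int.natCast_nonneg _, ?_⟩
      calc ∑ t, (j t : ℤ) ≤ ∑ _t : Fin m, ((w : ℤ) - 1) := by
            refine Finset.sum_le_sum fun t _ => ?_
            have := hj t
            omega
        _ = _ := by rw [Finset.sum_const, Finset.card_univ, Fintype.card_fin, nsmul_eq_mul]
    have hkey : (H : ℤ) * n = (H : ℤ) * ev (M : ℤ) (∑ t, u t - ∑ t, v t) +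
        (∑ t, (i t : ℤ) - ∑ t, (j t : ℤ)) := by
      rw [hab, ev_sub, ev_sum, ev_sum]
      rw [Finset.sum_congr rfl (fun t _ => hai t), Finset.sum_congr rfl (fun t _ => hbj t)]
      simp only [Finset.sum_add_distrib, ← Finset.mul_sum]
      ring
    have hz : ∑ t, (i t : ℤ) - ∑ t, (j t : ℤ) = 0 := by
      apply Int.eq_zero_of_abs_lt_dvd (m := (H : ℤ))
      · exact ⟨n - ev (M : ℤ) (∑ t, u t - ∑ t, v t), by linarith⟩
      · rw [abs_lt]
        constructor <;> linarith [hsi.1, hsi.2, hsj.1, hsj.2]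
    rw [hz, add_zero] at hkey
    exact mul_left_cancel₀ hHpos.ne' hkey

end Pool.Agent.Results.MP_3c7b25_co.NoPolyBogolyubov
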